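import Mathlib

set_option autoImplicit false

/-!
# The finite certificate: weights on the pairs of seven clusters
-/

namespace Pool.Agent.R102.PC

open Finset

/-- the weights -/
def w : Fin 7 → Fin 7 → ℕ :=
  ![![0, 4, 0, 2, 1, 4, 3],
    ![4, 0, 2, 0, 1, 0, 0],
    ![0, 2, 0, 2, 3, 0, 3],
    ![2, 0, 2, 0, 1, 2, 0],
    ![1, 1, 3, 1, 0, 5, 1],
    ![4, 0, 0, 2, 5, 0, 2],
    ![3, 0, 3, 0, 1, 2, 0]]

/-- the crossing pairs -/
def cr : List (Fin 7 × Fin 7 × Fin 7 × Fin 7) :=
  [(0, 1, 2, 3), (0, 1, 2, 4), (0, 1, 2, 6), (0, 1, 3, 5), (0, 1, 4, 5), (0, 1, 5, 6),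
    (0, 3, 2, 4), (0, 3, 4, 5), (0, 5, 1, 2), (0, 5, 2, 3), (0, 5, 2, 4), (0, 5, 2, 6),
    (0, 6, 1, 4), (0, 6, 2, 4), (0, 6, 3, 4), (0, 6, 4, 5), (1, 2, 3, 5), (1, 2, 4, 5),
    (1, 2, 5, 6), (1, 4, 2, 6), (1, 4, 5, 6), (2, 3, 4, 5), (2, 6, 3, 5), (2, 6, 4, 5)]

theorem w_symm (i j : Fin 7) : w i j = w j i := by revert i j; decide

theorem w_self (i : Fin 7) : w i i = 0 := by revert i; decide

theorem w_sum : ∑ i, ∑ j, w i j = 72 := by simp [Fin.sum_univ_succ, w]

theorem cr_ne : ∀ q ∈ cr, q.1 ≠ q.2.1 ∧ q.1 ≠ q.2.2.1 ∧ q.1 ≠ q.2.2.2 ∧ q.2.1 ≠ q.2.2.1 ∧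
    q.2.1 ≠ q.2.2.2 ∧ q.2.2.1 ≠ q.2.2.2 := by
  intro q hq
  simp only [cr, List.mem_cons, List.not_mem_nil, or_false] at hq
  rcases hq with rfl | rfl | rfl | rfl | rfl | rfl | rfl | rfl | rfl | rfl | rfl | rfl | rfl |
    rfl | rfl | rfl | rfl | rfl | rfl | rfl | rfl | rfl | rfl | rfl <;> decide

theorem fin (y : Fin 7 → ℕ) (S : Fin 7 → Fin 7 → Prop) (hs : ∀ i j, S i j → S j i)
    (h01 : S 0 1 → 4 ≤ y 0 + y 1) (h03 : S 0 3 → 2 ≤ y 0 + y 3) (h04 : S 0 4 → 1 ≤ y 0 + y 4)
    (h05 : S 0 5 → 4 ≤ y 0 + y 5) (h06 : S 0 6 → 3 ≤ y 0 + y 6) (h12 : S 1 2 → 2 ≤ y 1 + y 2)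
    (h14 : S 1 4 → 1 ≤ y 1 + y 4) (h23 : S 2 3 → 2 ≤ y 2 + y 3) (h24 : S 2 4 → 3 ≤ y 2 + y 4)
    (h26 : S 2 6 → 3 ≤ y 2 + y 6) (h34 : S 3 4 → 1 ≤ y 3 + y 4) (h35 : S 3 5 → 2 ≤ y 3 + y 5)
    (h45 : S 4 5 → 5 ≤ y 4 + y 5) (h46 : S 4 6 → 1 ≤ y 4 + y 6) (h56 : S 5 6 → 2 ≤ y 5 + y 6) :
    ∀ i j, S i j → w i j ≤ y i + y j := by
  have key : ∀ i j : Fin 7, i < j → S i j → w i j ≤ y i + y j := by
    intro i j hij hS
    fin_cases i <;> fin_cases j <;> first
      | (exfalso; revert hij; decide)
      | exact Nat.zero_le _
      | exact h01 hS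
      | exact h03 hS
      | exact h04 hS
      | exact h05 hS
      | exact h06 hS
      | exact h12 hS
      | exact h14 hS
      | exact h23 hS
      | exact h24 hS
      | exact h26 hS
      | exact h34 hS
      | exact h35 hS
      | exact h45 hS
      | exact h46 hS
      | exact h56 hS
  intro i j hS
  rcases lt_trichotomy i j with h | h | h
  · exact key i j h hS
  · subst h
    rw [w_self]
    exact Nat.zero_le _
  · have := key j i h (hs _ _ hS)
    rw [w_symm, add_comm]
    exact this

/-- If the pairs in use do not cross, the weights are dominated by the potentials of a vertex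
cover of value at most `5`. -/
theorem potential (S : Fin 7 → Fin 7 → Prop) (hs : ∀ i j, S i j → S j i)
    (hc : ∀ q ∈ cr, S q.1 q.2.1 → S q.2.2.1 q.2.2.2 → False) :
    ∃ y : Fin 7 → ℕ, ∑ i, y i ≤ 5 ∧ ∀ i j, S i j → w i j ≤ y i + y j := by
  classical
  have c0 : S 0 1 → S 2 3 → False := hc (0, 1, 2, 3) (by decide)
  have c1 : S 0 1 → S 2 4 → False := hc (0, 1, 2, 4) (by decide)
  have c2 : S 0 1 → S 2 6 → False := hc (0, 1, 2, 6) (by decide)
  have c3 : S 0 1 → S 3 5 → False := hc (0, 1, 3, 5) (by decide)
  have c4 : S 0 1 → S 4 5 → False := hc (0, 1, 4, 5) (by decide)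
  have c5 : S 0 1 → S 5 6 → False := hc (0, 1, 5, 6) (by decide)
  have c6 : S 0 3 → S 2 4 → False := hc (0, 3, 2, 4) (by decide)
  have c7 : S 0 3 → S 4 5 → False := hc (0, 3, 4, 5) (by decide)
  have c8 : S 0 5 → S 1 2 → False := hc (0, 5, 1, 2) (by decide)
  have c9 : S 0 5 → S 2 3 → False := hc (0, 5, 2, 3) (by decide)
  have c10 : S 0 5 → S 2 4 → False := hc (0, 5, 2, 4) (by decide)
  have c11 : S 0 5 → S 2 6 → False := hc (0, 5, 2, 6) (by decide)
  have c12 : S 0 6 → S 1 4 → False := hc (0, 6, 1, 4) (by decide)
  have c13 : S 0 6 → S 2 4 → False := hc (0, 6, 2, 4) (by decide)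
  have c14 : S 0 6 → S 3 4 → False := hc (0, 6, 3, 4) (by decide)
  have c15 : S 0 6 → S 4 5 → False := hc (0, 6, 4, 5) (by decide)
  have c16 : S 1 2 → S 3 5 → False := hc (1, 2, 3, 5) (by decide)
  have c17 : S 1 2 → S 4 5 → False := hc (1, 2, 4, 5) (by decide)
  have c18 : S 1 2 → S 5 6 → False := hc (1, 2, 5, 6) (by decide)
  have c19 : S 1 4 → S 2 6 → False := hc (1, 4, 2, 6) (by decide)
  have c20 : S 1 4 → S 5 6 → False := hc (1, 4, 5, 6) (by decide)
  have c21 : S 2 3 → S 4 5 → False := hc (2, 3, 4, 5) (by decide)
  have c22 : S 2 6 → S 3 5 → False := hc (2, 6, 3, 5) (by decide)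
  have c23 : S 2 6 → S 4 5 → False := hc (2, 6, 4, 5) (by decide)
  by_cases n01 : S 0 1
  · by_cases n05 : S 0 5
    · exact ⟨![4,0,0,0,1,0,0], by decide, fin _ S hs (fun _ => by decide) (fun _ => by decide)
        (fun _ => by decide) (fun _ => by decide) (fun _ => by decide)
        (fun h => ((fun h => c8 n05 h) h).elim) (fun _ => by decide)
        (fun h => ((fun h => c0 n01 h) h).elim) (fun h => ((fun h => c1 n01 h) h).elim)
        (fun h => ((fun h => c2 n01 h) h).elim) (fun _ => by decide)
        (fun h => ((fun h => c3 n01 h) h).elim) (fun h => ((fun h => c4 n01 h) h).elim)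
        (fun _ => by decide) (fun h => ((fun h => c5 n01 h) h).elim)⟩
    · by_cases n06 : S 0 6
      · exact ⟨![2,2,0,0,0,0,1], by decide, fin _ S hs (fun _ => by decide) (fun _ => by decide)
          (fun _ => by decide) (fun h => (n05 h).elim) (fun _ => by decide) (fun _ => by decide)
          (fun _ => by decide) (fun h => ((fun h => c0 n01 h) h).elim)
          (fun h => ((fun h => c1 n01 h) h).elim) (fun h => ((fun h => c2 n01 h) h).elim)
          (fun h => ((fun h => c14 n06 h) h).elim) (fun h => ((fun h => c3 n01 h) h).elim)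
          (fun h => ((fun h => c4 n01 h) h).elim) (fun _ => by decide)
          (fun h => ((fun h => c5 n01 h) h).elim)⟩
      · exact ⟨![2,2,0,0,1,0,0], by decide, fin _ S hs (fun _ => by decide) (fun _ => by decide)
          (fun _ => by decide) (fun h => (n05 h).elim) (fun h => (n06 h).elim)
          (fun _ => by decide) (fun _ => by decide) (fun h => ((fun h => c0 n01 h) h).elim)
          (fun h => ((fun h => c1 n01 h) h).elim) (fun h => ((fun h => c2 n01 h) h).elim)
          (fun _ => by decide) (fun h => ((fun h => c3 n01 h) h).elim)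
          (fun h => ((fun h => c4 n01 h) h).elim) (fun _ => by decide)
          (fun h => ((fun h => c5 n01 h) h).elim)⟩
  · by_cases n05 : S 0 5
    · by_cases n06 : S 0 6
      · exact ⟨![2,0,0,0,0,2,1], by decide, fin _ S hs (fun h => (n01 h).elim)
          (fun _ => by decide) (fun _ => by decide) (fun _ => by decide) (fun _ => by decide)
          (fun h => ((fun h => c8 n05 h) h).elim) (fun h => ((fun h => c12 n06 h) h).elim)
          (fun h => ((fun h => c9 n05 h) h).elim) (fun h => ((fun h => c10 n05 h) h).elim)
          (fun h => ((fun h => c11 n05 h) h).elim) (fun h => ((fun h => c14 n06 h) h).elim)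
          (fun _ => by decide) (fun h => ((fun h => c15 n06 h) h).elim) (fun _ => by decide)
          (fun _ => by decide)⟩
      · by_cases n03 : S 0 3
        · exact ⟨![2,0,0,0,1,2,0], by decide, fin _ S hs (fun h => (n01 h).elim)
            (fun _ => by decide) (fun _ => by decide) (fun _ => by decide) (fun h => (n06 h).elim)
            (fun h => ((fun h => c8 n05 h) h).elim) (fun _ => by decide)
            (fun h => ((fun h => c9 n05 h) h).elim) (fun h => ((fun h => c10 n05 h) h).elim)
            (fun h => ((fun h => c11 n05 h) h).elim) (fun _ => by decide) (fun _ => by decide)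
            (fun h => ((fun h => c7 n03 h) h).elim) (fun _ => by decide) (fun _ => by decide)⟩
        · exact ⟨![0,0,0,0,1,4,0], by decide, fin _ S hs (fun h => (n01 h).elim)
            (fun h => (n03 h).elim) (fun _ => by decide) (fun _ => by decide)
            (fun h => (n06 h).elim) (fun h => ((fun h => c8 n05 h) h).elim) (fun _ => by decide)
            (fun h => ((fun h => c9 n05 h) h).elim) (fun h => ((fun h => c10 n05 h) h).elim)
            (fun h => ((fun h => c11 n05 h) h).elim) (fun _ => by decide) (fun _ => by decide)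
            (fun _ => by decide) (fun _ => by decide) (fun _ => by decide)⟩
    · by_cases n45 : S 4 5
      · exact ⟨![0,0,0,0,3,2,0], by decide, fin _ S hs (fun h => (n01 h).elim)
          (fun h => ((fun h => c7 h n45) h).elim) (fun _ => by decide) (fun h => (n05 h).elim)
          (fun h => ((fun h => c15 h n45) h).elim) (fun h => ((fun h => c17 h n45) h).elim)
          (fun _ => by decide) (fun h => ((fun h => c21 h n45) h).elim) (fun _ => by decide)
          (fun h => ((fun h => c23 h n45) h).elim) (fun _ => by decide) (fun _ => by decide)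
          (fun _ => by decide) (fun _ => by decide) (fun _ => by decide)⟩
      · by_cases n14 : S 1 4
        · exact ⟨![0,0,2,2,1,0,0], by decide, fin _ S hs (fun h => (n01 h).elim)
            (fun _ => by decide) (fun _ => by decide) (fun h => (n05 h).elim)
            (fun h => ((fun h => c12 h n14) h).elim) (fun _ => by decide) (fun _ => by decide)
            (fun _ => by decide) (fun _ => by decide) (fun h => ((fun h => c19 n14 h) h).elim)
            (fun _ => by decide) (fun _ => by decide) (fun h => (n45 h).elim) (fun _ => by decide)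
            (fun h => ((fun h => c20 n14 h) h).elim)⟩
        · by_cases n24 : S 2 4
          · by_cases n26 : S 2 6
            · exact ⟨![0,0,2,0,1,0,2], by decide, fin _ S hs (fun h => (n01 h).elim)
                (fun h => ((fun h => c6 h n24) h).elim) (fun _ => by decide)
                (fun h => (n05 h).elim) (fun h => ((fun h => c13 h n24) h).elim)
                (fun _ => by decide) (fun _ => by decide) (fun _ => by decide)
                (fun _ => by decide) (fun _ => by decide) (fun _ => by decide)
                (fun h => ((fun h => c22 n26 h) h).elim) (fun h => (n45 h).elim)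
                (fun _ => by decide) (fun _ => by decide)⟩
            · exact ⟨![0,0,2,0,1,2,0], by decide, fin _ S hs (fun h => (n01 h).elim)
                (fun h => ((fun h => c6 h n24) h).elim) (fun _ => by decide)
                (fun h => (n05 h).elim) (fun h => ((fun h => c13 h n24) h).elim)
                (fun _ => by decide) (fun _ => by decide) (fun _ => by decide)
                (fun _ => by decide) (fun h => (n26 h).elim) (fun _ => by decide)
                (fun _ => by decide) (fun h => (n45 h).elim) (fun _ => by decide)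
                (fun _ => by decide)⟩
          · by_cases n12 : S 1 2
            · by_cases n06 : S 0 6
              · exact ⟨![2,0,2,0,0,0,1], by decide, fin _ S hs (fun h => (n01 h).elim)
                  (fun _ => by decide) (fun _ => by decide) (fun h => (n05 h).elim)
                  (fun _ => by decide) (fun _ => by decide) (fun h => (n14 h).elim)
                  (fun _ => by decide) (fun h => (n24 h).elim) (fun _ => by decide)
                  (fun h => ((fun h => c14 n06 h) h).elim)
                  (fun h => ((fun h => c16 n12 h) h).elim) (fun h => (n45 h).elim)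
                  (fun _ => by decide) (fun h => ((fun h => c18 n12 h) h).elim)⟩
              · exact ⟨![1,0,2,1,0,0,1], by decide, fin _ S hs (fun h => (n01 h).elim)
                  (fun _ => by decide) (fun _ => by decide) (fun h => (n05 h).elim)
                  (fun h => (n06 h).elim) (fun _ => by decide) (fun h => (n14 h).elim)
                  (fun _ => by decide) (fun h => (n24 h).elim) (fun _ => by decide)
                  (fun _ => by decide) (fun h => ((fun h => c16 n12 h) h).elim)
                  (fun h => (n45 h).elim) (fun _ => by decide)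
                  (fun h => ((fun h => c18 n12 h) h).elim)⟩
            · by_cases n26 : S 2 6
              · exact ⟨![1,0,1,1,0,0,2], by decide, fin _ S hs (fun h => (n01 h).elim)
                  (fun _ => by decide) (fun _ => by decide) (fun h => (n05 h).elim)
                  (fun _ => by decide) (fun h => (n12 h).elim) (fun h => (n14 h).elim)
                  (fun _ => by decide) (fun h => (n24 h).elim) (fun _ => by decide)
                  (fun _ => by decide) (fun h => ((fun h => c22 n26 h) h).elim)
                  (fun h => (n45 h).elim) (fun _ => by decide) (fun _ => by decide)⟩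
              · exact ⟨![1,0,0,2,0,0,2], by decide, fin _ S hs (fun h => (n01 h).elim)
                  (fun _ => by decide) (fun _ => by decide) (fun h => (n05 h).elim)
                  (fun _ => by decide) (fun h => (n12 h).elim) (fun h => (n14 h).elim)
                  (fun _ => by decide) (fun h => (n24 h).elim) (fun h => (n26 h).elim)
                  (fun _ => by decide) (fun _ => by decide) (fun h => (n45 h).elim)
                  (fun _ => by decide) (fun _ => by decide)⟩

end Pool.Agent.R102.PC
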