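import Mathlib

set_option autoImplicit false

/-!
# Coverings of a complete geometric graph by noncrossing paths: definitions
-/

namespace Pool.Agent.R102.PC

/-- The finite point set `A` of the plane is in general position: no three of its points are
collinear. -/
def GeneralPosition (A : Finset (ℝ × ℝ)) : Prop :=
  ∀ a ∈ A, ∀ b ∈ A, ∀ c ∈ A, a ≠ b → a ≠ c → b ≠ c → ¬ Collinear ℝ {a, b, c}

/-- `v 0, v 1, ..., v t` are the consecutive vertices of a noncrossing path in the complete
geometric graph on `A`: there is at least one edge, the vertices are distinct points of `A`, and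
whenever a point `x` of the plane belongs to two different edges (the edges are the segments from
`v i` to `v (i + 1)`), it is an endpoint of both of them. -/
def NoncrossingPath (A : Finset (ℝ × ℝ)) {t : ℕ} (v : Fin (t + 1) → ℝ × ℝ) : Prop :=
  1 ≤ t ∧ Function.Injective v ∧ (∀ i, v i ∈ A) ∧
    ∀ i j : Fin t, i ≠ j → ∀ x : ℝ × ℝ, x ∈ segment ℝ (v i.castSucc) (v i.succ) →
      x ∈ segment ℝ (v j.castSucc) (v j.succ) →
        (x = v i.castSucc ∨ x = v i.succ) ∧ (x = v j.castSucc ∨ x = v j.succ)

/-- The `r` noncrossing paths `v k` (with `t k` edges) cover the complete geometric graph on `A`: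
any two different points of `A` are joined by an edge of some path. -/
def IsCovering (A : Finset (ℝ × ℝ)) {r : ℕ} (t : Fin r → ℕ)
    (v : (k : Fin r) → Fin (t k + 1) → ℝ × ℝ) : Prop :=
  (∀ k, NoncrossingPath A (v k)) ∧
    ∀ a ∈ A, ∀ b ∈ A, a ≠ b → ∃ (k : Fin r) (i : Fin (t k)),
      (v k i.castSucc = a ∧ v k i.succ = b) ∨ (v k i.castSucc = b ∧ v k i.succ = a)

/-- `p(A)`, the smallest number of noncrossing paths that cover the complete geometric graph
on `A`. -/
noncomputable def pathCoverNumber (A : Finset (ℝ × ℝ)) : ℕ :=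
  sInf {r : ℕ | ∃ (t : Fin r → ℕ) (v : (k : Fin r) → Fin (t k + 1) → ℝ × ℝ), IsCovering A t v}

end Pool.Agent.R102.PC
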