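import Mathlib
import Pool.Agent.R102.PC.Cert

set_option autoImplicit false

/-!
# Crossing segments, the seven clusters, and points in general position
-/

namespace Pool.Agent.R102.PC

open Set MeasureTheory

/-- orientation -/
def o (a b c : ℝ × ℝ) : ℝ := (b.1 - a.1) * (c.2 - a.2) - (b.2 - a.2) * (c.1 - a.1)

/-- the segments `ab` and `cd` cross properly -/
def Cr (a b c d : ℝ × ℝ) : Prop := o a b c * o a b d < 0 ∧ o c d a * o c d b < 0

theorem div_mem {P R : ℝ} (h : P * R < 0) : P / (P - R) ∈ Set.Icc (0 : ℝ) 1 := by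
  rcases mul_neg_iff.mp h with ⟨hP, hR⟩ | ⟨hP, hR⟩
  · exact ⟨div_nonneg hP.le (by linarith), (div_le_one (by linarith)).mpr (by linarith)⟩
  · exact ⟨div_nonneg_of_nonpos hP.le (by linarith),
      (div_le_one_of_neg (by linarith)).mpr (by linarith)⟩

theorem Cr.common {a b c d : ℝ × ℝ} (h : Cr a b c d) :
    ∃ x, x ∈ segment ℝ a b ∧ x ∈ segment ℝ c d := by
  obtain ⟨h1, h2⟩ := h
  have hS := div_mem h1
  have hP := div_mem h2
  have hD : o c d a - o c d b ≠ 0 := by
    intro h
    have h3 : o c d a = o c d b := by linarith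
    rw [h3] at h2
    nlinarith [mul_self_nonneg (o c d b)]
  have hD' : o a b c - o a b d ≠ 0 := by
    intro h
    have h3 : o a b c = o a b d := by linarith
    rw [h3] at h1
    nlinarith [mul_self_nonneg (o a b d)]
  refine ⟨a + (o c d a / (o c d a - o c d b)) • (b - a), ?_, ?_⟩
  · rw [segment_eq_image']
    exact ⟨_, hP, rfl⟩
  · rw [segment_eq_image']
    refine ⟨_, hS, ?_⟩
    have hk : o c d a - o c d b = -(o a b c - o a b d) := by unfold o; ring
    have hk' : o c d a / (o c d a - o c d b) = - (o c d a / (o a b c - o a b d)) := by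
      rw [hk, div_neg]
    rw [hk']
    ext
    · simp only [Prod.fst_add, Prod.smul_fst, Prod.fst_sub, smul_eq_mul]
      field_simp
      unfold o
      ring
    · simp only [Prod.snd_add, Prod.smul_snd, Prod.snd_sub, smul_eq_mul]
      field_simp
      unfold o
      ring

/-- the centres of the clusters -/
def Q : Fin 7 → ℝ × ℝ :=
  ![(867, 591), (361, 470), (931, 275), (675, 561), (623, 980), (746, 5), (392, 802)]

theorem Q_cr : ∀ q ∈ cr, Cr (Q q.1) (Q q.2.1) (Q q.2.2.1) (Q q.2.2.2) := by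
  intro q hq
  simp only [cr, List.mem_cons, List.not_mem_nil, or_false] at hq
  rcases hq with rfl | rfl | rfl | rfl | rfl | rfl | rfl | rfl | rfl | rfl | rfl | rfl | rfl |
    rfl | rfl | rfl | rfl | rfl | rfl | rfl | rfl | rfl | rfl | rfl <;>
  · simp only [Cr, o, Q]
    constructor <;> simp <;> norm_num

theorem isOpen_cr : IsOpen {z : (ℝ × ℝ) × (ℝ × ℝ) × (ℝ × ℝ) × (ℝ × ℝ) |
    Cr z.1 z.2.1 z.2.2.1 z.2.2.2} := by
  unfold Cr o
  apply IsOpen.and
  · exact isOpen_lt (by fun_prop) (by fun_prop)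
  · exact isOpen_lt (by fun_prop) (by fun_prop)

theorem exists_eps_one (q : Fin 7 × Fin 7 × Fin 7 × Fin 7) (hq : q ∈ cr) :
    ∀ᶠ ε in nhdsWithin (0 : ℝ) (Set.Ioi 0), ∀ a b c d : ℝ × ℝ, dist a (Q q.1) < ε →
      dist b (Q q.2.1) < ε → dist c (Q q.2.2.1) < ε → dist d (Q q.2.2.2) < ε → Cr a b c d := by
  obtain ⟨δ, hδ, h⟩ := Metric.isOpen_iff.mp isOpen_cr
    (Q q.1, Q q.2.1, Q q.2.2.1, Q q.2.2.2) (Q_cr q hq)
  filter_upwards [Ioo_mem_nhdsGT hδ] with ε hε a b c d ha hb hc hd
  have : (a, b, c, d) ∈ Metric.ball (Q q.1, Q q.2.1, Q q.2.2.1, Q q.2.2.2) δ := by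
    rw [Metric.mem_ball]
    exact max_lt (ha.trans hε.2) (max_lt (hb.trans hε.2) (max_lt (hc.trans hε.2) (hd.trans hε.2)))
  exact h this

theorem exists_eps : ∃ ε : ℝ, 0 < ε ∧ ∀ q ∈ cr, ∀ a b c d : ℝ × ℝ, dist a (Q q.1) < ε →
      dist b (Q q.2.1) < ε → dist c (Q q.2.2.1) < ε → dist d (Q q.2.2.2) < ε → Cr a b c d := by
  have h : ∀ᶠ ε in nhdsWithin (0 : ℝ) (Set.Ioi 0), ∀ q ∈ cr.toFinset, ∀ a b c d : ℝ × ℝ,
      dist a (Q q.1) < ε → dist b (Q q.2.1) < ε → dist c (Q q.2.2.1) < ε →
      dist d (Q q.2.2.2) < ε → Cr a b c d := by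
    rw [Filter.eventually_all_finset]
    intro q hq
    exact exists_eps_one q (List.mem_toFinset.mp hq)
  obtain ⟨ε, h1, h2⟩ := (h.and self_mem_nhdsWithin).exists
  exact ⟨ε, h2, fun q hq => h1 q (List.mem_toFinset.mpr hq)⟩

theorem line_null (a b : ℝ × ℝ) : volume (affineSpan ℝ {a, b} : Set (ℝ × ℝ)) = 0 := by
  apply Measure.addHaar_affineSubspace
  intro h
  have h1 := (collinear_iff_finrank_le_one (k := ℝ)).mp (collinear_pair ℝ a b)
  rw [← direction_affineSpan, h, AffineSubspace.direction_top, finrank_top] at h1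
  simp at h1

/-- There are points in general position in given nonempty open sets. -/
theorem exists_generic {ι : Type*} [DecidableEq ι] (U : ι → Set (ℝ × ℝ))
    (hU : ∀ i, IsOpen (U i)) (hne : ∀ i, (U i).Nonempty) (s : Finset ι) :
    ∃ p : ι → ℝ × ℝ, (∀ i ∈ s, p i ∈ U i) ∧ (∀ i ∈ s, ∀ j ∈ s, i ≠ j → p i ≠ p j) ∧
      ∀ i ∈ s, ∀ j ∈ s, ∀ k ∈ s, i ≠ j → i ≠ k → j ≠ k → ¬ Collinear ℝ {p i, p j, p k} := by
  induction s using Finset.induction_on with
  | empty => exact ⟨fun _ => 0, by simp, by simp, by simp⟩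
  | insert a s ha ih =>
    obtain ⟨p, h1, h2, h3⟩ := ih
    have hnull : volume (⋃ q ∈ s ×ˢ s, (affineSpan ℝ {p q.1, p q.2} : Set (ℝ × ℝ))) = 0 := by
      exact (measure_biUnion_null_iff (Finset.countable_toSet (s ×ˢ s))).mpr
        (fun q _ => line_null _ _)
    have hex : ∃ x ∈ U a, x ∉ ⋃ q ∈ s ×ˢ s, (affineSpan ℝ {p q.1, p q.2} : Set (ℝ × ℝ)) := by
      by_contra hcon
      push Not at hcon
      have h4 := measure_mono_null (μ := volume) hcon hnull
      exact (((hU a).measure_pos volume (hne a)).ne') h4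
    obtain ⟨x, hxU, hx⟩ := hex
    simp only [Set.mem_iUnion, not_exists] at hx
    have hx' : ∀ i ∈ s, ∀ j ∈ s, x ∉ (affineSpan ℝ {p i, p j} : Set (ℝ × ℝ)) := by
      intro i hi j hj
      exact hx (i, j) (Finset.mem_product.mpr ⟨hi, hj⟩)
    have hxp : ∀ i ∈ s, x ≠ p i := by
      intro i hi h
      apply hx' i hi i hi
      rw [h]
      exact mem_affineSpan ℝ (by simp)
    have hpa : ∀ i ∈ s, Function.update p a x i = p i := by
      intro i hi
      rw [Function.update_of_ne]
      rintro rfl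
      exact ha hi
    refine ⟨Function.update p a x, ?_, ?_, ?_⟩
    · intro i hi0
      rcases Finset.mem_insert.mp hi0 with rfl | hi
      · simpa using hxU
      · rw [hpa i hi]
        exact h1 i hi
    · intro i hi0 j hj0 hij
      rcases Finset.mem_insert.mp hi0 with rfl | hi <;>
        rcases Finset.mem_insert.mp hj0 with rfl | hj
      · exact absurd rfl hij
      · rw [hpa j hj, Function.update_self]
        exact hxp j hj
      · rw [hpa i hi, Function.update_self]
        exact (hxp i hi).symm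
      · rw [hpa i hi, hpa j hj]
        exact h2 i hi j hj hij
    · have hline : ∀ i ∈ s, ∀ j ∈ s, i ≠ j → ∀ t : Set (ℝ × ℝ), x ∈ t → p i ∈ t → p j ∈ t →
          ¬ Collinear ℝ t := by
        intro i hi j hj hij t hxt hit hjt hcol
        exact hx' i hi j hj (hcol.mem_affineSpan_of_mem_of_ne hit hjt hxt (h2 i hi j hj hij))
      intro i hi0 j hj0 k hk0 hij hik hjk
      rcases Finset.mem_insert.mp hi0 with rfl | hi <;>
        rcases Finset.mem_insert.mp hj0 with rfl | hj <;>
        rcases Finset.mem_insert.mp hk0 with rfl | hk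
      · exact absurd rfl hij
      · exact absurd rfl hij
      · exact absurd rfl hik
      · rw [hpa j hj, hpa k hk, Function.update_self]
        exact hline j hj k hk hjk _ (by simp) (by simp) (by simp)
      · exact absurd rfl hjk
      · rw [hpa i hi, hpa k hk, Function.update_self]
        exact hline i hi k hk hik _ (by simp) (by simp) (by simp)
      · rw [hpa i hi, hpa j hj, Function.update_self]
        exact hline i hi j hj hij _ (by simp) (by simp) (by simp)
      · rw [hpa i hi, hpa j hj, hpa k hk]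
        exact h3 i hi j hj k hk hij hik hjk

end Pool.Agent.R102.PC
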