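import Mathlib
import Pool.Agent.R102.PC.Cert
import Pool.Agent.R102.PC.Geom
import Pool.Agent.R102.PC.Defs

set_option autoImplicit false

/-!
# Counting
-/

namespace Pool.Agent.R102.PC

open Finset

/-- A covering by paths exists. -/
theorem exists_covering (A : Finset (ℝ × ℝ)) :
    {r : ℕ | ∃ (t : Fin r → ℕ) (v : (k : Fin r) → Fin (t k + 1) → ℝ × ℝ),
      IsCovering A t v}.Nonempty := by
  refine ⟨A.offDiag.card, fun _ => 1, fun k => ![(A.offDiag.equivFin.symm k).1.1,
    (A.offDiag.equivFin.symm k).1.2], ?_, ?_⟩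
  · intro k
    have hk := (A.offDiag.equivFin.symm k).2
    rw [mem_offDiag] at hk
    refine ⟨le_refl 1, ?_, ?_, ?_⟩
    · intro i j hij
      fin_cases i <;> fin_cases j
      · rfl
      · exact absurd hij hk.2.2
      · exact absurd hij.symm hk.2.2
      · rfl
    · intro i
      fin_cases i
      · exact hk.1
      · exact hk.2.1
    · intro i j hij
      exact absurd (Subsingleton.elim i j) hij
  · intro a ha b hb hab
    have h : (a, b) ∈ A.offDiag := mem_offDiag.mpr ⟨ha, hb, hab⟩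
    refine ⟨A.offDiag.equivFin ⟨(a, b), h⟩, 0, Or.inl ⟨?_, ?_⟩⟩
    · simp
    · simp

variable {m : ℕ}

theorem sum_inj_le (y : Fin 7 → ℕ) {t : ℕ} (f : Fin t → Fin 7 × Fin m)
    (hf : Function.Injective f) : ∑ e, y (f e).1 ≤ m * ∑ i, y i := by
  calc ∑ e, y (f e).1 = ∑ x ∈ univ.image f, y x.1 := by
        rw [sum_image (fun a _ b _ h => hf h)]
    _ ≤ ∑ x : Fin 7 × Fin m, y x.1 := sum_le_sum_of_subset (subset_univ _)
    _ = m * ∑ i, y i := by
        rw [Fintype.sum_prod_type, mul_sum]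
        apply sum_congr rfl
        intro i _
        simp

/-- the weight of a noncrossing path -/
theorem path_weight {ε : ℝ}
    (hε : ∀ q ∈ cr, ∀ a b c d : ℝ × ℝ, dist a (Q q.1) < ε →
      dist b (Q q.2.1) < ε → dist c (Q q.2.2.1) < ε → dist d (Q q.2.2.2) < ε → Cr a b c d)
    {p : Fin 7 × Fin m → ℝ × ℝ} (hp : ∀ i, dist (p i) (Q i.1) < ε)
    {A : Finset (ℝ × ℝ)} {q : ℝ × ℝ → Fin 7 × Fin m} (hq : ∀ x ∈ A, p (q x) = x)
    {t : ℕ} {v : Fin (t + 1) → ℝ × ℝ} (hv : NoncrossingPath A v) :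
    ∑ e : Fin t, w (q (v e.castSucc)).1 (q (v e.succ)).1 ≤ 10 * m := by
  obtain ⟨-, hinj, hA, hcross⟩ := hv
  have hpv : ∀ i, p (q (v i)) = v i := fun i => hq _ (hA i)
  have hqinj : Function.Injective (fun i => q (v i)) := by
    intro i j hij
    apply hinj
    rw [← hpv i, ← hpv j]
    exact congrArg p hij
  set S : Fin 7 → Fin 7 → Prop := fun i j => ∃ e : Fin t,
    ((q (v e.castSucc)).1 = i ∧ (q (v e.succ)).1 = j) ∨
      ((q (v e.castSucc)).1 = j ∧ (q (v e.succ)).1 = i) with hS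
  have hsymm : ∀ i j, S i j → S j i := by
    rintro i j ⟨e, h⟩
    exact ⟨e, h.symm⟩
  -- an edge of type `S i j` with the right orientation
  have hor : ∀ i j, S i j → ∃ (e : Fin t) (s s' : Fin (t + 1)), (q (v s)).1 = i ∧
      (q (v s')).1 = j ∧ segment ℝ (v e.castSucc) (v e.succ) = segment ℝ (v s) (v s') ∧
      (∀ x, (x = v e.castSucc ∨ x = v e.succ) → (q x).1 = i ∨ (q x).1 = j) := by
    rintro i j ⟨e, h | h⟩
    · refine ⟨e, e.castSucc, e.succ, h.1, h.2, rfl, ?_⟩
      rintro x (rfl | rfl)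
      · exact Or.inl h.1
      · exact Or.inr h.2
    · refine ⟨e, e.succ, e.castSucc, h.2, h.1, segment_symm _ _ _, ?_⟩
      rintro x (rfl | rfl)
      · exact Or.inr h.1
      · exact Or.inl h.2
  have hd : ∀ s, dist (v s) (Q (q (v s)).1) < ε := by
    intro s
    have := hp (q (v s))
    rwa [hpv] at this
  have hc : ∀ c ∈ cr, S c.1 c.2.1 → S c.2.2.1 c.2.2.2 → False := by
    intro c hc h1 h2
    obtain ⟨e, s, s', hs, hs', hseg, hx⟩ := hor _ _ h1
    obtain ⟨e', u, u', hu, hu', hseg', hx'⟩ := hor _ _ h2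
    obtain ⟨n12, n13, n14, n23, n24, n34⟩ := cr_ne c hc
    have hC : Cr (v s) (v s') (v u) (v u') := by
      apply hε c hc
      · rw [← hs]; exact hd s
      · rw [← hs']; exact hd s'
      · rw [← hu]; exact hd u
      · rw [← hu']; exact hd u'
    obtain ⟨x, hx1, hx2⟩ := hC.common
    rw [← hseg] at hx1
    rw [← hseg'] at hx2
    have hee : e ≠ e' := by
      rintro rfl
      rcases hx' _ (Or.inl rfl) with h | h <;> rcases hx _ (Or.inl rfl) with h' | h'
      · exact n13 (h'.symm.trans h)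
      · exact n23 (h'.symm.trans h)
      · exact n14 (h'.symm.trans h)
      · exact n24 (h'.symm.trans h)
    obtain ⟨h3, h4⟩ := hcross e e' hee x hx1 hx2
    rcases hx' _ h4 with h | h <;> rcases hx _ h3 with h' | h'
    · exact n13 (h'.symm.trans h)
    · exact n23 (h'.symm.trans h)
    · exact n14 (h'.symm.trans h)
    · exact n24 (h'.symm.trans h)
  obtain ⟨y, hy5, hy⟩ := potential S hsymm hc
  calc ∑ e : Fin t, w (q (v e.castSucc)).1 (q (v e.succ)).1
      ≤ ∑ e : Fin t, (y (q (v e.castSucc)).1 + y (q (v e.succ)).1) :=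
        sum_le_sum fun e _ => hy _ _ ⟨e, Or.inl ⟨rfl, rfl⟩⟩
    _ = ∑ e : Fin t, y (q (v e.castSucc)).1 + ∑ e : Fin t, y (q (v e.succ)).1 :=
        sum_add_distrib
    _ ≤ m * ∑ i, y i + m * ∑ i, y i := by
        apply add_le_add
        · exact sum_inj_le y (fun e : Fin t => q (v e.castSucc))
            (fun a b h => Fin.castSucc_injective _ (hqinj h))
        · exact sum_inj_le y (fun e : Fin t => q (v e.succ))
            (fun a b h => Fin.succ_injective _ (hqinj h))
    _ ≤ 10 * m := by nlinarith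

theorem total_weight : ∑ s : Fin 7 × Fin m, ∑ u : Fin 7 × Fin m, w s.1 u.1 = 72 * m ^ 2 := by
  simp only [Fintype.sum_prod_type]
  simp only [sum_const, card_univ, Fintype.card_fin, smul_eq_mul]
  have h : ∀ i : Fin 7, m * ∑ j : Fin 7, m * w i j = m ^ 2 * ∑ j, w i j := by
    intro i
    rw [← mul_sum]
    ring
  simp only [h]
  rw [← mul_sum, w_sum]
  ring

theorem ind_sum (a b : Fin 7 × Fin m) :
    ∑ s : Fin 7 × Fin m, ∑ u : Fin 7 × Fin m, w s.1 u.1 * (if a = s ∧ b = u then 1 else 0) =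
      w a.1 b.1 := by
  rw [sum_eq_single a, sum_eq_single b]
  · simp
  · intro u _ hu
    rw [if_neg]
    · simp
    · rintro ⟨-, h⟩
      exact hu h.symm
  · simp
  · intro s _ hs
    apply sum_eq_zero
    intro u _
    rw [if_neg]
    · simp
    · rintro ⟨h, -⟩
      exact hs h.symm
  · simp

theorem covering_bound {ε : ℝ}
    (hε : ∀ q ∈ cr, ∀ a b c d : ℝ × ℝ, dist a (Q q.1) < ε →
      dist b (Q q.2.1) < ε → dist c (Q q.2.2.1) < ε → dist d (Q q.2.2.2) < ε → Cr a b c d)
    {p : Fin 7 × Fin m → ℝ × ℝ} (hp : ∀ i, dist (p i) (Q i.1) < ε)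
    (hpinj : Function.Injective p)
    {A : Finset (ℝ × ℝ)} (hA : A = univ.image p) {q : ℝ × ℝ → Fin 7 × Fin m}
    (hq : ∀ i, q (p i) = i) {r : ℕ} {t : Fin r → ℕ} {v : (k : Fin r) → Fin (t k + 1) → ℝ × ℝ}
    (hv : IsCovering A t v) : 72 * m ^ 2 ≤ 2 * (r * (10 * m)) := by
  obtain ⟨hpath, hcov⟩ := hv
  have hq' : ∀ x ∈ A, p (q x) = x := by
    intro x hx
    rw [hA] at hx
    obtain ⟨i, -, rfl⟩ := mem_image.mp hx
    rw [hq]
  have hpA : ∀ i, p i ∈ A := fun i => hA ▸ mem_image_of_mem p (mem_univ i)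
  have hpt : ∀ s u : Fin 7 × Fin m, w s.1 u.1 ≤
      ∑ k : Fin r, ∑ e : Fin (t k), (w s.1 u.1 *
        (if q (v k e.castSucc) = s ∧ q (v k e.succ) = u then 1 else 0) +
        w s.1 u.1 * (if q (v k e.castSucc) = u ∧ q (v k e.succ) = s then 1 else 0)) := by
    intro s u
    rcases Nat.eq_zero_or_pos (w s.1 u.1) with h0 | h0
    · rw [h0]; exact Nat.zero_le _
    have hsu : s ≠ u := by
      rintro rfl
      rw [w_self] at h0
      exact lt_irrefl _ h0
    obtain ⟨k, e, h⟩ := hcov (p s) (hpA s) (p u) (hpA u) (fun h => hsu (hpinj h))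
    calc w s.1 u.1 ≤ (w s.1 u.1 *
        (if q (v k e.castSucc) = s ∧ q (v k e.succ) = u then 1 else 0) +
        w s.1 u.1 * (if q (v k e.castSucc) = u ∧ q (v k e.succ) = s then 1 else 0)) := by
          rcases h with ⟨h1, h2⟩ | ⟨h1, h2⟩
          · rw [h1, h2, hq, hq, if_pos ⟨rfl, rfl⟩]
            omega
          · rw [h1, h2, hq, hq, if_pos (⟨rfl, rfl⟩ : u = u ∧ s = s)]
            omega
      _ ≤ ∑ e : Fin (t k), (w s.1 u.1 *
        (if q (v k e.castSucc) = s ∧ q (v k e.succ) = u then 1 else 0) +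
        w s.1 u.1 * (if q (v k e.castSucc) = u ∧ q (v k e.succ) = s then 1 else 0)) :=
          single_le_sum (f := fun e : Fin (t k) => (w s.1 u.1 *
            (if q (v k e.castSucc) = s ∧ q (v k e.succ) = u then 1 else 0) +
            w s.1 u.1 * (if q (v k e.castSucc) = u ∧ q (v k e.succ) = s then 1 else 0)))
            (fun _ _ => Nat.zero_le _) (mem_univ e)
      _ ≤ _ := single_le_sum (f := fun k : Fin r => ∑ e : Fin (t k), (w s.1 u.1 *
            (if q (v k e.castSucc) = s ∧ q (v k e.succ) = u then 1 else 0) +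
            w s.1 u.1 * (if q (v k e.castSucc) = u ∧ q (v k e.succ) = s then 1 else 0)))
            (fun _ _ => Nat.zero_le _) (mem_univ k)
  calc 72 * m ^ 2 = ∑ s : Fin 7 × Fin m, ∑ u : Fin 7 × Fin m, w s.1 u.1 := total_weight.symm
    _ ≤ ∑ s : Fin 7 × Fin m, ∑ u : Fin 7 × Fin m, ∑ k : Fin r, ∑ e : Fin (t k), (w s.1 u.1 *
        (if q (v k e.castSucc) = s ∧ q (v k e.succ) = u then 1 else 0) +
        w s.1 u.1 * (if q (v k e.castSucc) = u ∧ q (v k e.succ) = s then 1 else 0)) :=
        sum_le_sum fun s _ => sum_le_sum fun u _ => hpt s u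
    _ = ∑ k : Fin r, ∑ e : Fin (t k), ∑ s : Fin 7 × Fin m, ∑ u : Fin 7 × Fin m, (w s.1 u.1 *
        (if q (v k e.castSucc) = s ∧ q (v k e.succ) = u then 1 else 0) +
        w s.1 u.1 * (if q (v k e.castSucc) = u ∧ q (v k e.succ) = s then 1 else 0)) := by
        have h1 : ∀ s : Fin 7 × Fin m, (∑ u : Fin 7 × Fin m, ∑ k : Fin r, ∑ e : Fin (t k),
            (w s.1 u.1 * (if q (v k e.castSucc) = s ∧ q (v k e.succ) = u then 1 else 0) +
            w s.1 u.1 * (if q (v k e.castSucc) = u ∧ q (v k e.succ) = s then 1 else 0))) =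
            ∑ k : Fin r, ∑ e : Fin (t k), ∑ u : Fin 7 × Fin m,
            (w s.1 u.1 * (if q (v k e.castSucc) = s ∧ q (v k e.succ) = u then 1 else 0) +
            w s.1 u.1 * (if q (v k e.castSucc) = u ∧ q (v k e.succ) = s then 1 else 0)) := by
          intro s
          rw [sum_comm]
          exact sum_congr rfl fun k _ => sum_comm
        rw [sum_congr rfl fun s _ => h1 s, sum_comm]
        exact sum_congr rfl fun k _ => sum_comm
    _ = ∑ k : Fin r, ∑ e : Fin (t k), 2 * w (q (v k e.castSucc)).1 (q (v k e.succ)).1 := by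
        apply sum_congr rfl
        intro k _
        apply sum_congr rfl
        intro e _
        simp only [sum_add_distrib]
        rw [ind_sum, sum_comm]
        have h2 : ∑ u : Fin 7 × Fin m, ∑ s : Fin 7 × Fin m, w s.1 u.1 *
            (if q (v k e.castSucc) = u ∧ q (v k e.succ) = s then 1 else 0) =
            ∑ u : Fin 7 × Fin m, ∑ s : Fin 7 × Fin m, w u.1 s.1 *
            (if q (v k e.castSucc) = u ∧ q (v k e.succ) = s then 1 else 0) :=
          sum_congr rfl fun u _ => sum_congr rfl fun s _ => by rw [w_symm]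
        rw [h2, ind_sum]
        ring
    _ ≤ ∑ k : Fin r, 2 * (10 * m) := by
        apply sum_le_sum
        intro k _
        rw [← mul_sum]
        exact Nat.mul_le_mul_left 2 (path_weight hε hp hq' (hpath k))
    _ = 2 * (r * (10 * m)) := by
        rw [sum_const, card_univ, Fintype.card_fin, smul_eq_mul]
        ring

theorem main (m : ℕ) : ∃ A : Finset (ℝ × ℝ), A.card = 7 * m ∧ GeneralPosition A ∧
    (18 / 35 : ℝ) * A.card ≤ pathCoverNumber A := by
  obtain ⟨ε, hε0, hε⟩ := exists_eps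
  obtain ⟨p, h1, h2, h3⟩ := exists_generic (ι := Fin 7 × Fin m)
    (fun i => Metric.ball (Q i.1) ε) (fun _ => Metric.isOpen_ball)
    (fun _ => Metric.nonempty_ball.mpr hε0) univ
  have hinj : Function.Injective p := by
    intro i j hij
    by_contra hne
    exact h2 i (mem_univ _) j (mem_univ _) hne hij
  have hcard : (univ.image p).card = 7 * m := by
    rw [card_image_of_injective _ hinj, card_univ]
    simp
  refine ⟨univ.image p, hcard, ?_, ?_⟩
  · intro a ha b hb c hc hab hac hbc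
    obtain ⟨i, -, rfl⟩ := mem_image.mp ha
    obtain ⟨j, -, rfl⟩ := mem_image.mp hb
    obtain ⟨k, -, rfl⟩ := mem_image.mp hc
    exact h3 i (mem_univ _) j (mem_univ _) k (mem_univ _) (fun h => hab (by rw [h]))
      (fun h => hac (by rw [h])) (fun h => hbc (by rw [h]))
  · rw [hcard]
    rcases Nat.eq_zero_or_pos m with rfl | hm
    · simp
    have : Nonempty (Fin 7 × Fin m) := ⟨(0, ⟨0, hm⟩)⟩
    have hmem := Nat.sInf_mem (exists_covering (univ.image p))
    obtain ⟨t, v, hv⟩ := hmem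
    have hb := covering_bound (q := Function.invFun p) hε (fun i => h1 i (mem_univ _)) hinj rfl
      (fun i => Function.leftInverse_invFun hinj i) hv
    have hb' : 18 * m ≤ 5 * pathCoverNumber (univ.image p) := by
      unfold pathCoverNumber
      nlinarith
    have hb'' : (18 : ℝ) * m ≤ 5 * pathCoverNumber (univ.image p) := by exact_mod_cast hb'
    push_cast
    linarith

end Pool.Agent.R102.PC
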